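import Pool.Agent.Q136.ESP.Core

/-!
# Population ratio of periodic patterns in reversible elementary PCAs

There is one reversible non-conservative automaton of the square model in which every finite
non-null configuration is a periodic pattern and in which the ratio of the largest and the smallest
population of a periodic pattern is unbounded.
-/

set_option autoImplicit false

namespace Pool.Agent.Results.MP_998f06_co.UnboundedRatio

/-- A cell state `(t, r, b, l)`: the top, right, bottom and left part. -/
abbrev State := Bool × Bool × Bool × Bool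

/-- The all-zero state. -/
def zero : State := (false, false, false, false)

/-- The global map of the square model. -/
def globalMap (f : State → State) (α : ℤ × ℤ → State) (x : ℤ × ℤ) : State :=
  f ((α (x + (0, 1))).1, (α (x + (1, 0))).2.1, (α (x + (0, -1))).2.2.1, (α (x + (-1, 0))).2.2.2)

/-- Rotation symmetry of the local function. -/
def RotationSymmetric (f : State → State) : Prop :=
  ∀ t r b l t' r' b' l', f (t, r, b, l) = (t', r', b', l') → f (r, b, l, t) = (r', b', l', t')

/-- The number of ones of a cell state. -/
def ones (s : State) : ℕ := s.1.toNat + s.2.1.toNat + s.2.2.1.toNat + s.2.2.2.toNat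

/-- Conservative: the local function preserves the number of ones of every cell state. -/
def Conservative (f : State → State) : Prop := ∀ s, ones (f s) = ones s

/-- Finitely many cells are non-zero. -/
def IsFinite (α : ℤ × ℤ → State) : Prop := {x | α x ≠ zero}.Finite

/-- The population, the total number of ones. -/
noncomputable def popul (α : ℤ × ℤ → State) : ℕ := ∑ᶠ x, ones (α x)

/-- A periodic pattern of the automaton with local function `f`. -/
def IsPeriodicPattern (f : State → State) (α : ℤ × ℤ → State) : Prop :=
  IsFinite α ∧ (∃ x, α x ≠ zero) ∧ ∃ n ≥ 1, (globalMap f)^[n] α = α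

open Pool.Agent.Q136.ESP in
/-- the cell states as functions on the four directions in which the ones move -/
def e : State ≃ S where
  toFun s := ![s.2.2.1, s.2.2.2, s.1, s.2.1]
  invFun m := (m 2, m 3, m 0, m 1)
  left_inv s := rfl
  right_inv m := by
    funext d
    fin_cases d <;> rfl

theorem e_apply (s : State) (d : Fin 4) : e s d = ![s.2.2.1, s.2.2.2, s.1, s.2.1] d := rfl

/-- the local function -/
def f (s : State) : State :=
  e.symm (Pool.Agent.Q136.ESP.rule ![s.1, s.2.1, s.2.2.1, s.2.2.2])

theorem e_step (α : ℤ × ℤ → State) :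
    (fun x => e (globalMap f α x)) = Pool.Agent.Q136.ESP.G Pool.Agent.Q136.ESP.rule
      (fun x => e (α x)) := by
  funext x
  simp only [globalMap, f, Equiv.apply_symm_apply, Pool.Agent.Q136.ESP.G]
  congr 1
  funext d
  obtain ⟨x1, x2⟩ := x
  fin_cases d
  · simp [e_apply, Pool.Agent.Q136.ESP.nb, Pool.Agent.Q136.ESP.dx, Pool.Agent.Q136.ESP.dy]
  · simp [e_apply, Pool.Agent.Q136.ESP.nb, Pool.Agent.Q136.ESP.dx, Pool.Agent.Q136.ESP.dy]
  · simp [e_apply, Pool.Agent.Q136.ESP.nb, Pool.Agent.Q136.ESP.dx, Pool.Agent.Q136.ESP.dy]
  · simp [e_apply, Pool.Agent.Q136.ESP.nb, Pool.Agent.Q136.ESP.dx, Pool.Agent.Q136.ESP.dy]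

theorem ones_eq : ∀ s : State, ones s = Pool.Agent.Q136.ESP.wt (e s) := by decide

/-- **Both questions are answered by one automaton**: there is a reversible non-conservative ESPCA
for which every finite non-null configuration is a periodic pattern and, for every `C`, some
periodic pattern has `pmax / pmin > C`. -/
theorem result : ∃ f : State → State, RotationSymmetric f ∧ f zero = zero ∧
    Function.Injective f ∧ Function.Injective (globalMap f) ∧ ¬ Conservative f ∧
    (∀ α, IsFinite α → (∃ x, α x ≠ zero) → IsPeriodicPattern f α) ∧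
    ∀ C : ℝ, ∃ (α : ℤ × ℤ → State) (pmax pmin : ℕ), IsPeriodicPattern f α ∧
      IsGreatest (Set.range fun t : ℕ => popul ((globalMap f)^[t] α)) pmax ∧
      IsLeast (Set.range fun t : ℕ => popul ((globalMap f)^[t] α)) pmin ∧
      1 ≤ pmin ∧ C < (pmax : ℝ) / pmin := by
  obtain ⟨h1, h2, h3⟩ := Pool.Agent.Q136.ESP.transfer e zero (by decide) ones ones_eq
    (globalMap f) e_step
  refine ⟨f, ?_, by decide, by decide, h1, ?_, fun α h h' => ⟨h, h', h2 α h⟩, fun C => ?_⟩
  · unfold RotationSymmetric
    decide
  · unfold Conservative
    decide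
  · obtain ⟨α, m, n, hα, hα', hm, hn, hn1, hC⟩ := h3 C
    exact ⟨α, m, n, ⟨hα, hα', h2 α hα⟩, hm, hn, hn1, hC⟩

end Pool.Agent.Results.MP_998f06_co.UnboundedRatio
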